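import Pool.Agent.helper85.PG.Spec2
import Pool.Agent.helper85.PG.Basic

set_option autoImplicit false

namespace Pool.Agent.helper85.PG

open Module Pointwise

/-- few disjoint translates in a small region -/
theorem CAI_count (hPKC : PKC_stmt) (p : ℕ) [Fact p.Prime] (D : ℕ) (Z : ℝ → Finset (ZMod p)) (hZ : IsSys p D Z)
    (F : Finset (ZMod p))
    (hdis : ∀ x ∈ F, ∀ x' ∈ F, ∀ v ∈ Z (1 / 16), ∀ v' ∈ Z (1 / 16), x + v = x' + v' → x = x')
    (hdiff : ∀ x ∈ F, ∀ x' ∈ F, x - x' ∈ Z 4) : (F.card : ℝ) ≤ 161 ^ D := by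
  classical
  have hZp : (0 : ℝ) < ((Z (1 / 16)).card : ℝ) := by exact_mod_cast hZ.card_pos (by norm_num)
  rcases F.eq_empty_or_nonempty with h | ⟨x0, hx0⟩
  · rw [h, Finset.card_empty, Nat.cast_zero]
    positivity
  · have h1 : F.card * (Z (1 / 16)).card ≤ (Z 5).card := by
      rw [← Finset.card_product]
      refine Finset.card_le_card_of_injOn (fun t : ZMod p × ZMod p => t.1 + t.2 - x0) ?_ ?_
      · intro t ht
        obtain ⟨h2, h3⟩ := Finset.mem_product.1 ht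
        have h4 := hZ.add_mem (hdiff _ h2 _ hx0) h3
        have h5 : t.1 - x0 + t.2 = t.1 + t.2 - x0 := by ring
        rw [h5] at h4
        exact hZ.mono (by norm_num) h4
      · rintro ⟨x, v⟩ ht ⟨x', v'⟩ ht' hxy
        obtain ⟨h2, h3⟩ := Finset.mem_product.1 (Finset.mem_coe.1 ht)
        obtain ⟨h4, h5⟩ := Finset.mem_product.1 (Finset.mem_coe.1 ht')
        have h6 : x + v = x' + v' := by
          have h7 : x + v - x0 = x' + v' - x0 := hxy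
          exact sub_left_injective h7
        have h8 := hdis _ h2 _ h4 _ h3 _ h5 h6
        subst h8
        have h9 := add_left_cancel h6
        rw [h9]
    have h2 := (hPKC.2.2 p D Z hZ 5 (1 / 16) (by norm_num) (by norm_num)).1
    have h3 : (1 : ℝ) + 2 * 5 / (1 / 16) = 161 := by norm_num
    rw [h3] at h2
    have h4 : (F.card : ℝ) * ((Z (1 / 16)).card : ℝ) ≤ ((Z 5).card : ℝ) := by exact_mod_cast h1
    exact le_of_mul_le_mul_right (h4.trans h2) hZp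

/-- one part of the double sum -/
theorem CAI_part (hWBI : WBI_stmt) (p : ℕ) [Fact p.Prime] (A B Z8 : Finset (ZMod p)) (χ : MulChar (ZMod p) ℂ)
    (w : ZMod p → ℝ) (i j s : ZMod p) (W : ℝ) (α β : ZMod p → ℂ) (hα : ∀ a, ‖α a‖ ≤ 1) (hβ : ∀ b, ‖β b‖ ≤ 1)
    (hA : ∀ a ∈ A, a - i ∈ Z8) (hB : ∀ b ∈ B, b - j ∈ Z8)
    (hw : ∀ u ∈ Z8, ∀ v ∈ Z8, w (u + v) = 1)
    (hW : ∀ ψ : AddChar (ZMod p) ℂ, ‖∑ c : ZMod p, ((w c : ℂ) * χ (c + (s + i + j))) * ψ c‖ ≤ W) :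
    ‖∑ a ∈ A, ∑ b ∈ B, α a * β b * χ (a + b + s)‖ ≤ W * (Z8.card : ℝ) := by
  classical
  have hW0 : 0 ≤ W := (norm_nonneg _).trans (hW 1)
  have h1 := hWBI p (A.image fun a => a - i) (B.image fun b => b - j) (fun u => α (u + i)) (fun v => β (v + j))
    (fun c => (w c : ℂ) * χ (c + (s + i + j))) W (fun u => hα _) (fun v => hβ _) hW
  have h2 : ∑ u ∈ A.image (fun a => a - i), ∑ v ∈ B.image (fun b => b - j),
      α (u + i) * β (v + j) * ((w (u + v) : ℂ) * χ (u + v + (s + i + j))) = ∑ a ∈ A, ∑ b ∈ B, α a * β b * χ (a + b + s) := by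
    rw [Finset.sum_image (fun x _ y _ hxy => sub_left_injective hxy)]
    refine Finset.sum_congr rfl fun a ha => ?_
    rw [Finset.sum_image (fun x _ y _ hxy => sub_left_injective hxy)]
    refine Finset.sum_congr rfl fun b hb => ?_
    rw [hw _ (hA a ha) _ (hB b hb)]
    have e1 : a - i + i = a := by ring
    have e2 : b - j + j = b := by ring
    have e3 : a - i + (b - j) + (s + i + j) = a + b + s := by ring
    rw [e1, e2, e3]
    push_cast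
    ring
  rw [h2] at h1
  refine h1.trans (mul_le_mul_of_nonneg_left ?_ hW0)
  have h3 : (((A.image fun a => a - i).card : ℕ) : ℝ) ≤ (Z8.card : ℝ) := by
    refine Nat.cast_le.2 (Finset.card_le_card ?_)
    intro u hu
    obtain ⟨a, ha, rfl⟩ := Finset.mem_image.1 hu
    exact hA a ha
  have h4 : (((B.image fun b => b - j).card : ℕ) : ℝ) ≤ (Z8.card : ℝ) := by
    refine Nat.cast_le.2 (Finset.card_le_card ?_)
    intro u hu
    obtain ⟨a, ha, rfl⟩ := Finset.mem_image.1 hu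
    exact hB a ha
  calc Real.sqrt ((A.image fun a => a - i).card : ℝ) * Real.sqrt ((B.image fun b => b - j).card : ℝ)
      ≤ Real.sqrt (Z8.card : ℝ) * Real.sqrt (Z8.card : ℝ) :=
        mul_le_mul (Real.sqrt_le_sqrt h3) (Real.sqrt_le_sqrt h4) (Real.sqrt_nonneg _) (Real.sqrt_nonneg _)
    _ = (Z8.card : ℝ) := Real.mul_self_sqrt (Nat.cast_nonneg _)

/-- multiplicities -/
theorem CAI_mult (p : ℕ) [Fact p.Prime] (XI YJ Z1 R : Finset (ZMod p)) (K : ℝ) (F : ZMod p → ℝ) (hF : ∀ v, 0 ≤ F v)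
    (hR : ∀ i ∈ XI, ∀ j ∈ YJ, ∀ c ∈ Z1, i + j + c ∈ R)
    (hI : ∀ v, (((XI.filter fun i => ∃ j ∈ YJ, ∃ c ∈ Z1, i + j + c = v).card : ℕ) : ℝ) ≤ K)
    (hJ : ∀ v, (((YJ.filter fun j => ∃ i ∈ XI, ∃ c ∈ Z1, i + j + c = v).card : ℕ) : ℝ) ≤ K) :
    ∑ i ∈ XI, ∑ j ∈ YJ, ∑ c ∈ Z1, F (i + j + c) ≤ K ^ 2 * ∑ v ∈ R, F v := by
  classical
  have h1 : ∑ i ∈ XI, ∑ j ∈ YJ, ∑ c ∈ Z1, F (i + j + c) =
      ∑ t ∈ (XI ×ˢ YJ) ×ˢ Z1, F (t.1.1 + t.1.2 + t.2) := by
    rw [Finset.sum_product, Finset.sum_product]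
  rw [h1, ← Finset.sum_fiberwise_of_maps_to (s := (XI ×ˢ YJ) ×ˢ Z1) (t := R) (g := fun t => t.1.1 + t.1.2 + t.2)
    (fun t ht => by
      obtain ⟨h2, h3⟩ := Finset.mem_product.1 ht
      obtain ⟨h4, h5⟩ := Finset.mem_product.1 h2
      exact hR _ h4 _ h5 _ h3), Finset.mul_sum]
  refine Finset.sum_le_sum fun v _ => ?_
  have h2 : ∑ t ∈ ((XI ×ˢ YJ) ×ˢ Z1).filter (fun t => t.1.1 + t.1.2 + t.2 = v), F (t.1.1 + t.1.2 + t.2) =
      ((((XI ×ˢ YJ) ×ˢ Z1).filter (fun t => t.1.1 + t.1.2 + t.2 = v)).card : ℝ) * F v := by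
    rw [← nsmul_eq_mul]
    refine Finset.sum_eq_card_nsmul fun t ht => ?_
    rw [(Finset.mem_filter.1 ht).2]
  rw [h2]
  refine mul_le_mul_of_nonneg_right ?_ (hF v)
  have h3 : (((XI ×ˢ YJ) ×ˢ Z1).filter (fun t => t.1.1 + t.1.2 + t.2 = v)).card ≤
      ((XI.filter fun i => ∃ j ∈ YJ, ∃ c ∈ Z1, i + j + c = v) ×ˢ
        (YJ.filter fun j => ∃ i ∈ XI, ∃ c ∈ Z1, i + j + c = v)).card := by
    refine Finset.card_le_card_of_injOn (fun t : (ZMod p × ZMod p) × ZMod p => t.1) ?_ ?_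
    · intro t ht
      obtain ⟨h4, h5⟩ := Finset.mem_filter.1 (Finset.mem_coe.1 ht)
      obtain ⟨h6, h7⟩ := Finset.mem_product.1 h4
      obtain ⟨h8, h9⟩ := Finset.mem_product.1 h6
      exact Finset.mem_coe.2 (Finset.mem_product.2 ⟨Finset.mem_filter.2 ⟨h8, _, h9, _, h7, h5⟩,
        Finset.mem_filter.2 ⟨h9, _, h8, _, h7, h5⟩⟩)
    · rintro ⟨⟨i, j⟩, c⟩ ht ⟨⟨i', j'⟩, c'⟩ ht' hxy
      have h5 := (Finset.mem_filter.1 (Finset.mem_coe.1 ht)).2
      have h6 := (Finset.mem_filter.1 (Finset.mem_coe.1 ht')).2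
      have h7 : (i, j) = (i', j') := hxy
      obtain ⟨h8, h9⟩ := Prod.mk.inj h7
      subst h8
      subst h9
      have h10 : i + j + c = i + j + c' := h5.trans h6.symm
      rw [add_left_cancel h10]
  rw [Finset.card_product] at h3
  have h4 : ((((XI ×ˢ YJ) ×ˢ Z1).filter (fun t => t.1.1 + t.1.2 + t.2 = v)).card : ℝ) ≤
      (((XI.filter fun i => ∃ j ∈ YJ, ∃ c ∈ Z1, i + j + c = v).card : ℕ) : ℝ) *
        (((YJ.filter fun j => ∃ i ∈ XI, ∃ c ∈ Z1, i + j + c = v).card : ℕ) : ℝ) := by exact_mod_cast h3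
  refine h4.trans ?_
  rw [pow_two]
  exact mul_le_mul (hI v) (hJ v) (Nat.cast_nonneg _) ((Nat.cast_nonneg _).trans (hI v))

theorem CAI (hPKC : PKC_stmt) (hINT : INT_stmt) (hCVR : CVR_stmt) (hWBI : WBI_stmt) (hREG : REG_stmt)
    (hBSH : BSH_stmt) : CAI_stmt := by
  classical
  intro d
  refine ⟨161 ^ (4 * d) + 16 * (5 ^ (4 * d) * 33 ^ (2 * d)), ?_, ?_⟩
  · have h1 : (1 : ℝ) ≤ 161 ^ (4 * d) := one_le_pow₀ (by norm_num)
    have h2 : (0 : ℝ) ≤ 16 * (5 ^ (4 * d) * 33 ^ (2 * d)) := by positivity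
    linarith
  intro p hpF P Q hP hQ η hη hη8 X T hX hX0 hT hXT χ Ψ hΨ0 hΨ s α β hα hβ
  have hZ : IsSys p (d + d) (fun R => P R ∩ Q R) := (hINT p d d P Q hP hQ).1
  set Z : ℝ → Finset (ZMod p) := fun R => P R ∩ Q R with hZdef
  have hZP : ∀ R, Z R ⊆ P R := fun R => Finset.inter_subset_left
  have hZQ : ∀ R, Z R ⊆ Q R := fun R => Finset.inter_subset_right
  obtain ⟨w, hw1, hw2, hw3, hw4⟩ := hREG p (d + d) Z hZ η hη hη8
  have hV : (Z (1 / 16)).Nonempty := ⟨0, hZ.zero_mem (by norm_num)⟩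
  obtain ⟨XI, hXI1, hXI2, hXI3, hXI4⟩ := hCVR p (P 1) (Z (1 / 16)) hV
  obtain ⟨YJ, hYJ1, hYJ2, hYJ3, hYJ4⟩ := hCVR p (Q 1) (Z (1 / 16)) hV
  have hcovI : ∀ a ∈ P 1, ∃ x ∈ XI, a - x ∈ Z (1 / 8) := by
    intro a ha
    obtain ⟨x, hx, v, hv, v', hv', h⟩ := hXI3 a ha
    refine ⟨x, hx, ?_⟩
    have h1 := hZ.sub_mem hv' hv
    have h2 : v' - v = a - x := by linear_combination (-1 : ZMod p) * h
    rw [h2] at h1
    exact hZ.mono (by norm_num) h1
  have hcovJ : ∀ a ∈ Q 1, ∃ x ∈ YJ, a - x ∈ Z (1 / 8) := by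
    intro a ha
    obtain ⟨x, hx, v, hv, v', hv', h⟩ := hYJ3 a ha
    refine ⟨x, hx, ?_⟩
    have h1 := hZ.sub_mem hv' hv
    have h2 : v' - v = a - x := by linear_combination (-1 : ZMod p) * h
    rw [h2] at h1
    exact hZ.mono (by norm_num) h1
  choose! fI hfI1 hfI2 using hcovI
  choose! fJ hfJ1 hfJ2 using hcovJ
  -- the bound of one part
  set W : ZMod p → ZMod p → ℝ := fun i j =>
    (∑ x ∈ X, ∑ c ∈ Z 1, Ψ ((c + (s + i + j)) / x)) / ((X.card : ℝ) * (T : ℝ)) + 16 * η * ((Z 1).card : ℝ) with hW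
  have hpart : ∀ i j, ‖∑ a ∈ (P 1).filter (fun a => fI a = i), ∑ b ∈ (Q 1).filter (fun b => fJ b = j),
      α a * β b * χ (a + b + s)‖ ≤ W i j * ((Z (1 / 8)).card : ℝ) := by
    intro i j
    refine CAI_part hWBI p _ _ (Z (1 / 8)) χ w i j s (W i j) α β hα hβ ?_ ?_ ?_ ?_
    · intro a ha
      obtain ⟨h1, h2⟩ := Finset.mem_filter.1 ha
      rw [← h2]
      exact hfI2 a h1
    · intro a ha
      obtain ⟨h1, h2⟩ := Finset.mem_filter.1 ha
      rw [← h2]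
      exact hfJ2 a h1
    · intro u hu v hv
      refine hw2 _ ?_
      have h1 := hZ.add_mem hu hv
      exact hZ.mono (by norm_num) h1
    · intro ψ
      exact hBSH p Z w η X T χ Ψ (s + i + j) ψ hw1 hw3 hw4 hX hX0 hT hXT hΨ
  have hsplit : ∑ a ∈ P 1, ∑ b ∈ Q 1, α a * β b * χ (a + b + s) =
      ∑ i ∈ XI, ∑ j ∈ YJ, ∑ a ∈ (P 1).filter (fun a => fI a = i), ∑ b ∈ (Q 1).filter (fun b => fJ b = j),
        α a * β b * χ (a + b + s) := by
    rw [← Finset.sum_fiberwise_of_maps_to (s := P 1) (t := XI) (g := fI) (fun a ha => hfI1 a ha)]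
    refine Finset.sum_congr rfl fun i _ => ?_
    refine Eq.trans ?_ Finset.sum_comm
    refine Finset.sum_congr rfl fun a _ => ?_
    exact (Finset.sum_fiberwise_of_maps_to (s := Q 1) (t := YJ) (g := fJ) (fun b hb => hfJ1 b hb) _).symm
  have hXpos : (0 : ℝ) < (X.card : ℝ) * (T : ℝ) := by
    have h1 : (0 : ℝ) < (X.card : ℝ) := by exact_mod_cast Finset.card_pos.2 hX
    have h2 : (0 : ℝ) < (T : ℝ) := by exact_mod_cast hT
    positivity
  have hmult : ∀ x, ∑ i ∈ XI, ∑ j ∈ YJ, ∑ c ∈ Z 1, Ψ ((c + (s + i + j)) / x) ≤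
      161 ^ (4 * d) * ∑ v ∈ P 3 + Q 3, Ψ ((v + s) / x) := by
    intro x
    have h1 := CAI_mult p XI YJ (Z 1) (P 3 + Q 3) (161 ^ (d + d)) (fun v => Ψ ((v + s) / x)) (fun v => hΨ0 _) ?_ ?_ ?_
    · have h2 : ((161 : ℝ) ^ (d + d)) ^ 2 = 161 ^ (4 * d) := by
        rw [← pow_mul]
        congr 1
        ring
      rw [h2] at h1
      refine le_trans (le_of_eq ?_) h1
      refine Finset.sum_congr rfl fun i _ => Finset.sum_congr rfl fun j _ => Finset.sum_congr rfl fun c _ => ?_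
      have h3 : c + (s + i + j) = i + j + c + s := by ring
      rw [h3]
    · intro i hi j hj c hc
      have h2 : i + c ∈ P 3 := hP.mono (by norm_num) (hP.add_mem (hXI1 hi) (hZP 1 hc))
      have h3 : j ∈ Q 3 := hQ.mono (by norm_num) (hYJ1 hj)
      have h4 : i + j + c = (i + c) + j := by ring
      rw [h4]
      exact Finset.add_mem_add h2 h3
    · intro v
      refine CAI_count hPKC p (d + d) Z hZ _ ?_ ?_
      · intro x hx x' hx'
        exact hXI2 x (Finset.mem_filter.1 hx).1 x' (Finset.mem_filter.1 hx').1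
      · intro i hi i' hi'
        obtain ⟨h1, j, hj, c, hc, h2⟩ := Finset.mem_filter.1 hi
        obtain ⟨h3, j', hj', c', hc', h4⟩ := Finset.mem_filter.1 hi'
        refine Finset.mem_inter.2 ⟨hP.mono (by norm_num) (hP.sub_mem (hXI1 h1) (hXI1 h3)), ?_⟩
        have h5 := hQ.add_mem (hQ.sub_mem (hYJ1 hj') (hYJ1 hj)) (hQ.sub_mem (hZQ 1 hc') (hZQ 1 hc))
        have h6 : j' - j + (c' - c) = i - i' := by linear_combination h4 - h2
        rw [h6] at h5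
        exact hQ.mono (by norm_num) h5
    · intro v
      refine CAI_count hPKC p (d + d) Z hZ _ ?_ ?_
      · intro x hx x' hx'
        exact hYJ2 x (Finset.mem_filter.1 hx).1 x' (Finset.mem_filter.1 hx').1
      · intro j hj j' hj'
        obtain ⟨h1, i, hi, c, hc, h2⟩ := Finset.mem_filter.1 hj
        obtain ⟨h3, i', hi', c', hc', h4⟩ := Finset.mem_filter.1 hj'
        refine Finset.mem_inter.2 ⟨?_, hQ.mono (by norm_num) (hQ.sub_mem (hYJ1 h1) (hYJ1 h3))⟩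
        have h5 := hP.add_mem (hP.sub_mem (hXI1 hi') (hXI1 hi)) (hP.sub_mem (hZP 1 hc') (hZP 1 hc))
        have h6 : i' - i + (c' - c) = j - j' := by linear_combination h4 - h2
        rw [h6] at h5
        exact hP.mono (by norm_num) h5
  -- sizes
  have hZ8 : ((Z (1 / 8)).card : ℝ) ≤ ((P 1 ∩ Q 1).card : ℝ) := by
    exact_mod_cast Finset.card_le_card (hZ.mono (by norm_num : (1 / 8 : ℝ) ≤ 1))
  have hz16 : (0 : ℝ) < ((Z (1 / 16)).card : ℝ) := by exact_mod_cast hZ.card_pos (by norm_num)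
  have hz8 : ((Z (1 / 8)).card : ℝ) ≤ 5 ^ (2 * d) * ((Z (1 / 16)).card : ℝ) := by
    have h := (hPKC.2.2 p (d + d) Z hZ (1 / 8) (1 / 16) (by norm_num) (by norm_num)).1
    have h2 : (1 : ℝ) + 2 * (1 / 8) / (1 / 16) = 5 := by norm_num
    rw [h2] at h
    rwa [two_mul]
  have hz1 : ((Z 1).card : ℝ) ≤ 33 ^ (2 * d) * ((Z (1 / 16)).card : ℝ) := by
    have h := (hPKC.2.2 p (d + d) Z hZ 1 (1 / 16) (by norm_num) (by norm_num)).1
    have h2 : (1 : ℝ) + 2 * 1 / (1 / 16) = 33 := by norm_num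
    rw [h2] at h
    rwa [two_mul]
  have hI : (XI.card : ℝ) * ((Z (1 / 16)).card : ℝ) ≤ 5 ^ d * ((P 1).card : ℝ) := by
    have h1 : ((P 1 + Z (1 / 16)).card : ℝ) ≤ ((P 2).card : ℝ) := by
      refine Nat.cast_le.2 (Finset.card_le_card ?_)
      intro y hy
      obtain ⟨a, ha, v, hv, rfl⟩ := Finset.mem_add.1 hy
      exact hP.mono (by norm_num) (hP.add_mem ha (hZP _ hv))
    have h2 := (hPKC.2.2 p d P hP 2 1 (by norm_num) (by norm_num)).1
    have h3 : (1 : ℝ) + 2 * 2 / 1 = 5 := by norm_num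
    rw [h3] at h2
    have h4 : (XI.card : ℝ) * ((Z (1 / 16)).card : ℝ) ≤ ((P 1 + Z (1 / 16)).card : ℝ) := by exact_mod_cast hXI4
    exact h4.trans (h1.trans h2)
  have hJ : (YJ.card : ℝ) * ((Z (1 / 16)).card : ℝ) ≤ 5 ^ d * ((Q 1).card : ℝ) := by
    have h1 : ((Q 1 + Z (1 / 16)).card : ℝ) ≤ ((Q 2).card : ℝ) := by
      refine Nat.cast_le.2 (Finset.card_le_card ?_)
      intro y hy
      obtain ⟨a, ha, v, hv, rfl⟩ := Finset.mem_add.1 hy
      exact hQ.mono (by norm_num) (hQ.add_mem ha (hZQ _ hv))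
    have h2 := (hPKC.2.2 p d Q hQ 2 1 (by norm_num) (by norm_num)).1
    have h3 : (1 : ℝ) + 2 * 2 / 1 = 5 := by norm_num
    rw [h3] at h2
    have h4 : (YJ.card : ℝ) * ((Z (1 / 16)).card : ℝ) ≤ ((Q 1 + Z (1 / 16)).card : ℝ) := by exact_mod_cast hYJ4
    exact h4.trans (h1.trans h2)
  -- assembly
  set N : ℝ := ∑ x ∈ X, ∑ v ∈ P 3 + Q 3, Ψ ((v + s) / x) with hN
  have hN0 : 0 ≤ N := Finset.sum_nonneg fun x _ => Finset.sum_nonneg fun v _ => hΨ0 _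
  have hfirst : ∑ i ∈ XI, ∑ j ∈ YJ, (∑ x ∈ X, ∑ c ∈ Z 1, Ψ ((c + (s + i + j)) / x)) ≤ 161 ^ (4 * d) * N := by
    have h1 : ∑ i ∈ XI, ∑ j ∈ YJ, (∑ x ∈ X, ∑ c ∈ Z 1, Ψ ((c + (s + i + j)) / x)) =
        ∑ x ∈ X, ∑ i ∈ XI, ∑ j ∈ YJ, ∑ c ∈ Z 1, Ψ ((c + (s + i + j)) / x) := by
      rw [Finset.sum_comm (s := X) (t := XI)]
      refine Finset.sum_congr rfl fun i _ => ?_
      rw [Finset.sum_comm]
    rw [h1, hN, Finset.mul_sum]
    exact Finset.sum_le_sum fun x _ => hmult x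
  have hZZ : (0 : ℝ) ≤ ((Z (1 / 8)).card : ℝ) := Nat.cast_nonneg _
  have hsecond : (XI.card : ℝ) * (YJ.card : ℝ) * (16 * η * ((Z 1).card : ℝ)) * ((Z (1 / 8)).card : ℝ) ≤
      16 * (5 ^ (4 * d) * 33 ^ (2 * d)) * (η * ((P 1).card : ℝ) * ((Q 1).card : ℝ)) := by
    calc (XI.card : ℝ) * (YJ.card : ℝ) * (16 * η * ((Z 1).card : ℝ)) * ((Z (1 / 8)).card : ℝ)
        ≤ (XI.card : ℝ) * (YJ.card : ℝ) * (16 * η * (33 ^ (2 * d) * ((Z (1 / 16)).card : ℝ))) *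
          (5 ^ (2 * d) * ((Z (1 / 16)).card : ℝ)) := by
          refine mul_le_mul ?_ hz8 hZZ (by positivity)
          refine mul_le_mul_of_nonneg_left ?_ (by positivity)
          exact mul_le_mul_of_nonneg_left hz1 (by positivity)
      _ = 16 * (5 ^ (2 * d) * 33 ^ (2 * d)) * η * (((XI.card : ℝ) * ((Z (1 / 16)).card : ℝ)) *
          ((YJ.card : ℝ) * ((Z (1 / 16)).card : ℝ))) := by ring
      _ ≤ 16 * (5 ^ (2 * d) * 33 ^ (2 * d)) * η * ((5 ^ d * ((P 1).card : ℝ)) * (5 ^ d * ((Q 1).card : ℝ))) := by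
          refine mul_le_mul_of_nonneg_left ?_ (by positivity)
          exact mul_le_mul hI hJ (by positivity) (by positivity)
      _ = 16 * (5 ^ (4 * d) * 33 ^ (2 * d)) * (η * ((P 1).card : ℝ) * ((Q 1).card : ℝ)) := by
          have h1 : (5 : ℝ) ^ (4 * d) = 5 ^ (2 * d) * (5 ^ d * 5 ^ d) := by
            rw [← pow_add, ← pow_add]
            congr 1
            ring
          rw [h1]
          ring
  calc ‖∑ a ∈ P 1, ∑ b ∈ Q 1, α a * β b * χ (a + b + s)‖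
      = ‖∑ i ∈ XI, ∑ j ∈ YJ, ∑ a ∈ (P 1).filter (fun a => fI a = i), ∑ b ∈ (Q 1).filter (fun b => fJ b = j),
        α a * β b * χ (a + b + s)‖ := by rw [hsplit]
    _ ≤ ∑ i ∈ XI, ∑ j ∈ YJ, W i j * ((Z (1 / 8)).card : ℝ) := by
        refine (norm_sum_le _ _).trans (Finset.sum_le_sum fun i _ => ?_)
        exact (norm_sum_le _ _).trans (Finset.sum_le_sum fun j _ => hpart i j)
    _ = (∑ i ∈ XI, ∑ j ∈ YJ, (∑ x ∈ X, ∑ c ∈ Z 1, Ψ ((c + (s + i + j)) / x))) / ((X.card : ℝ) * (T : ℝ)) *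
          ((Z (1 / 8)).card : ℝ) +
        (XI.card : ℝ) * (YJ.card : ℝ) * (16 * η * ((Z 1).card : ℝ)) * ((Z (1 / 8)).card : ℝ) := by
        simp only [hW, add_mul, Finset.sum_add_distrib, Finset.sum_const, nsmul_eq_mul, Finset.sum_div, Finset.sum_mul]
        ring
    _ ≤ (161 ^ (4 * d) * N) / ((X.card : ℝ) * (T : ℝ)) * ((P 1 ∩ Q 1).card : ℝ) +
        16 * (5 ^ (4 * d) * 33 ^ (2 * d)) * (η * ((P 1).card : ℝ) * ((Q 1).card : ℝ)) := by
        refine add_le_add ?_ hsecond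
        refine mul_le_mul ?_ hZ8 hZZ (by positivity)
        exact div_le_div_of_nonneg_right hfirst hXpos.le
    _ = 161 ^ (4 * d) * (((P 1 ∩ Q 1).card : ℝ) / ((X.card : ℝ) * (T : ℝ)) * N) +
        16 * (5 ^ (4 * d) * 33 ^ (2 * d)) * (η * ((P 1).card : ℝ) * ((Q 1).card : ℝ)) := by ring
    _ ≤ (161 ^ (4 * d) + 16 * (5 ^ (4 * d) * 33 ^ (2 * d))) *
        (((P 1 ∩ Q 1).card : ℝ) / ((X.card : ℝ) * (T : ℝ)) * N) +
        (161 ^ (4 * d) + 16 * (5 ^ (4 * d) * 33 ^ (2 * d))) * (η * ((P 1).card : ℝ) * ((Q 1).card : ℝ)) := by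
        refine add_le_add ?_ ?_
        · refine mul_le_mul_of_nonneg_right ?_ (by positivity)
          have : (0 : ℝ) ≤ 16 * (5 ^ (4 * d) * 33 ^ (2 * d)) := by positivity
          linarith
        · refine mul_le_mul_of_nonneg_right ?_ (by positivity)
          have : (0 : ℝ) ≤ 161 ^ (4 * d) := by positivity
          linarith
    _ = _ := by ring

end Pool.Agent.helper85.PG
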