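import Pool.Agent.helper85.PG.Spec
import Pool.Agent.helper85.PG.Basic

set_option autoImplicit false

namespace Pool.Agent.helper85.PG

open Module

theorem LV2_rr_mono {p : ℕ} [Fact p.Prime] {S T : Finset (ZMod p)} (h : S ⊆ T) (ρ : ZMod p) :
    rr S ρ ≤ rr T ρ := by
  unfold rr
  refine Finset.card_le_card ?_
  intro y hy
  obtain ⟨h1, h2⟩ := Finset.mem_filter.1 hy
  exact Finset.mem_filter.2 ⟨h h1, h h2⟩

theorem LV2_T2 (hPKC : PKC_stmt) (hT2 : T2_stmt) (K : ℕ) (hK : 0 < K) (p : ℕ) [Fact p.Prime] (D : ℕ)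
    (P : ℝ → Finset (ZMod p)) (hsys : IsSys p D P) (b : ℝ) (hb : 0 < b) (C2 : ℝ)
    (hC2 : 3 * 25 ^ D * (4 * (K : ℝ) + 1) ^ (2 * D * K) ≤ C2) (S : Finset (ZMod p))
    (hS : ∀ ρ ∈ S, ρ ≠ 0 ∧ C2 * ((P b).card : ℝ) ^ 2 ≤ p * (rr (P b) ρ : ℝ)) :
    (S.card : ℝ) ≤ (p : ℝ) ^ (4 / (K : ℝ)) * ((p : ℝ) / ((P b).card : ℝ)) ^ 2 := by
  have hp : (0 : ℝ) < p := by exact_mod_cast (Fact.out : p.Prime).pos
  have hK1 : (1 : ℝ) ≤ (K : ℝ) := by exact_mod_cast hK
  have hK0 : (0 : ℝ) < (K : ℝ) := by linarith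
  have hbK : 0 < b / K := div_pos hb hK0
  have hbK' : b / K ≤ b := div_le_self hb.le hK1
  have hU0 : (0 : ℝ) < ((P (2 * b)).card : ℝ) := by exact_mod_cast hsys.card_pos (by linarith)
  have hV0 : (0 : ℝ) < ((P (b / K)).card : ℝ) := by exact_mod_cast hsys.card_pos hbK.le
  have hS0 : (0 : ℝ) < ((P b).card : ℝ) := by exact_mod_cast hsys.card_pos hb.le
  have hUV : ((P (2 * b)).card : ℝ) ≤ (4 * (K : ℝ) + 1) ^ D * ((P (b / K)).card : ℝ) := by
    have h := (hPKC.2.2 p D P hsys (2 * b) (b / K) (by linarith) hbK).1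
    have h2 : 1 + 2 * (2 * b) / (b / K) = 4 * (K : ℝ) + 1 := by
      field_simp
      ring
    rwa [h2] at h
  have hUS : ((P (2 * b)).card : ℝ) ≤ 5 ^ D * ((P b).card : ℝ) := by
    have h := (hPKC.2.2 p D P hsys (2 * b) b (by linarith) hb).1
    have h2 : 1 + 2 * (2 * b) / b = 5 := by
      field_simp
      norm_num
    rwa [h2] at h
  have h1 := hT2 p K hK (P b) (P (2 * b)) (P (b / K)) ⟨0, hsys.zero_mem (by linarith)⟩
    (hsys.mono (by linarith)) (by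
      intro y hy x hx
      have h3 : ∀ (T : Finset (Fin (K - 1))), ∑ i ∈ T, x i ∈ P ((T.card : ℝ) * (b / K)) := by
        intro T
        induction T using Finset.induction_on with
        | empty =>
          rw [Finset.sum_empty, Finset.card_empty, Nat.cast_zero, zero_mul]
          exact hsys.zero_mem le_rfl
        | insert a T ha ih =>
          rw [Finset.sum_insert ha, Finset.card_insert_of_notMem ha]
          have h4 := hsys.add_mem (hx a) ih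
          have h5 : b / K + (T.card : ℝ) * (b / K) = ((T.card + 1 : ℕ) : ℝ) * (b / K) := by
            push_cast
            ring
          rwa [h5] at h4
      have h6 := hsys.sub_mem hy (h3 Finset.univ)
      refine hsys.mono ?_ h6
      rw [Finset.card_univ, Fintype.card_fin]
      have h7 : ((K - 1 : ℕ) : ℝ) ≤ (K : ℝ) := by exact_mod_cast Nat.sub_le K 1
      have h8 : ((K - 1 : ℕ) : ℝ) * (b / K) ≤ (K : ℝ) * (b / K) := mul_le_mul_of_nonneg_right h7 hbK.le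
      have h9 : (K : ℝ) * (b / K) = b := by field_simp
      linarith)
  have h2 : S ⊆ (Finset.univ : Finset (ZMod p)).filter fun ρ => ρ ≠ 0 ∧
      2 * ((P (2 * b)).card : ℝ) ^ (2 * K) < (p : ℝ) * (rr (P b) ρ : ℝ) * ((P (b / K)).card : ℝ) ^ (2 * K - 2) := by
    intro ρ hρ
    obtain ⟨h3, h4⟩ := hS ρ hρ
    refine Finset.mem_filter.2 ⟨Finset.mem_univ _, h3, ?_⟩
    set U : ℝ := ((P (2 * b)).card : ℝ)
    set V : ℝ := ((P (b / K)).card : ℝ)
    set F : ℝ := ((P b).card : ℝ)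
    set A : ℝ := (4 * (K : ℝ) + 1) ^ D with hA
    have hA1 : 1 ≤ A := one_le_pow₀ (by linarith)
    have e1 : U ^ (2 * K) = U ^ 2 * U ^ (2 * K - 2) := by
      rw [← pow_add]
      congr 1
      omega
    have e2 : U ^ (2 * K - 2) ≤ A ^ (2 * K - 2) * V ^ (2 * K - 2) := by
      rw [← mul_pow]
      exact pow_le_pow_left₀ hU0.le hUV _
    have e3 : U ^ 2 ≤ 25 ^ D * F ^ 2 := by
      have : U ^ 2 ≤ (5 ^ D * F) ^ 2 := pow_le_pow_left₀ hU0.le hUS 2
      have h5 : ((5 : ℝ) ^ D * F) ^ 2 = 25 ^ D * F ^ 2 := by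
        rw [mul_pow, ← pow_mul, mul_comm D 2, pow_mul]
        norm_num
      rwa [h5] at this
    have e4 : A ^ (2 * K - 2) ≤ (4 * (K : ℝ) + 1) ^ (2 * D * K) := by
      rw [hA, ← pow_mul]
      refine pow_le_pow_right₀ (by linarith) ?_
      calc D * (2 * K - 2) ≤ D * (2 * K) := Nat.mul_le_mul_left _ (Nat.sub_le _ _)
        _ = 2 * D * K := by ring
    have hVp : 0 < V ^ (2 * K - 2) := pow_pos hV0 _
    have hFp : 0 < F ^ 2 := pow_pos hS0 _
    have hAp : 0 < A ^ (2 * K - 2) := pow_pos (by linarith) _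
    have h25 : (0 : ℝ) < 25 ^ D := pow_pos (by norm_num) _
    calc 2 * U ^ (2 * K) = 2 * (U ^ 2 * U ^ (2 * K - 2)) := by rw [e1]
      _ ≤ 2 * ((25 ^ D * F ^ 2) * (A ^ (2 * K - 2) * V ^ (2 * K - 2))) := by
          refine mul_le_mul_of_nonneg_left ?_ (by norm_num)
          exact mul_le_mul e3 e2 (pow_nonneg hU0.le _) (by positivity)
      _ < 3 * ((25 ^ D * F ^ 2) * (A ^ (2 * K - 2) * V ^ (2 * K - 2))) := by
          have : 0 < (25 ^ D * F ^ 2) * (A ^ (2 * K - 2) * V ^ (2 * K - 2)) := by positivity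
          linarith
      _ = (3 * 25 ^ D * A ^ (2 * K - 2)) * (F ^ 2 * V ^ (2 * K - 2)) := by ring
      _ ≤ (3 * 25 ^ D * (4 * (K : ℝ) + 1) ^ (2 * D * K)) * (F ^ 2 * V ^ (2 * K - 2)) := by
          refine mul_le_mul_of_nonneg_right ?_ (by positivity)
          exact mul_le_mul_of_nonneg_left e4 (by positivity)
      _ ≤ C2 * (F ^ 2 * V ^ (2 * K - 2)) := mul_le_mul_of_nonneg_right hC2 (by positivity)
      _ = (C2 * F ^ 2) * V ^ (2 * K - 2) := by ring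
      _ ≤ (p * (rr (P b) ρ : ℝ)) * V ^ (2 * K - 2) := mul_le_mul_of_nonneg_right h4 hVp.le
  have h3 : (S.card : ℝ) ≤ ((p : ℝ) ^ (1 + 2 / (K : ℝ)) / ((P (2 * b)).card : ℝ)) ^ 2 :=
    le_trans (by exact_mod_cast Finset.card_le_card h2) h1
  have h4 : ((P b).card : ℝ) ≤ ((P (2 * b)).card : ℝ) := by
    exact_mod_cast Finset.card_le_card (hsys.mono (by linarith))
  have h5 : ((p : ℝ) ^ (1 + 2 / (K : ℝ)) / ((P (2 * b)).card : ℝ)) ^ 2 ≤
      ((p : ℝ) ^ (1 + 2 / (K : ℝ)) / ((P b).card : ℝ)) ^ 2 := by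
    refine pow_le_pow_left₀ (by positivity) ?_ 2
    exact div_le_div_of_nonneg_left (by positivity) hS0 h4
  refine h3.trans (h5.trans (le_of_eq ?_))
  rw [div_pow, div_pow]
  have h6 : ((p : ℝ) ^ (1 + 2 / (K : ℝ))) ^ 2 = (p : ℝ) ^ (4 / (K : ℝ)) * (p : ℝ) ^ 2 := by
    rw [← Real.rpow_natCast ((p : ℝ) ^ (1 + 2 / (K : ℝ))) 2, ← Real.rpow_mul hp.le,
      ← Real.rpow_natCast (p : ℝ) 2, ← Real.rpow_add hp]
    congr 1
    push_cast
    ring
  rw [h6]
  ring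

theorem LV2 (hPKC : PKC_stmt) (hT2 : T2_stmt) (hQUO : QUO_stmt) : LV2_stmt := by
  classical
  intro d K C' hK hC' hLV
  set c4 : ℝ := 3 ^ (d + 1) * (4 * ((d + 1 : ℕ) : ℝ) + 6) ^ (2 * (d + 1)) with hc4
  set c5 : ℝ := (1 + 4 * ((d : ℝ) + 3)) ^ (d + 1) with hc5
  set C2 : ℝ := max (3 * 25 ^ (d + 1) * (4 * (K : ℝ) + 1) ^ (2 * (d + 1) * K)) (C' * c5 ^ 2) with hC2
  set c6 : ℝ := C2 * c4 * 5 ^ (d + 1) with hc6
  have hc4p : 0 < c4 := by rw [hc4]; positivity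
  have hc5p : 0 < c5 := by rw [hc5]; positivity
  have hC2a : 3 * 25 ^ (d + 1) * (4 * (K : ℝ) + 1) ^ (2 * (d + 1) * K) ≤ C2 := le_max_left _ _
  have hC2b : C' * c5 ^ 2 ≤ C2 := le_max_right _ _
  have hC2p : 0 < C2 := lt_of_lt_of_le (by positivity) hC2a
  have hc6p : 0 < c6 := by rw [hc6]; positivity
  refine ⟨max 1 (max C2 (C' * (c4 * c5) ^ 2 + c6 ^ 2)), le_max_left _ _, ?_⟩
  intro C hC p hpF E _ _ _ G l hFB hfin hl hspan hprop M hM S hS
  have hCC2 : C2 ≤ C := (le_max_left _ _).trans ((le_max_right _ _).trans hC)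
  have hp : (0 : ℝ) < p := by exact_mod_cast (Fact.out : p.Prime).pos
  have hsys : IsSys p (d + 1) (fun R => PP G R) :=
    ⟨E, inferInstance, inferInstance, G, inferInstance, hfin.le, hFB, fun _ => rfl⟩
  -- scales
  set b : ℕ → ℝ := fun i => 2 ^ i * l with hb
  have hbpos : ∀ i, 0 < b i := fun i => by simp only [hb]; positivity
  have hb0 : b 0 = l := by simp [hb]
  have hbs : ∀ i, b (i + 1) = 2 * b i := fun i => by simp only [hb]; ring
  have hbmono : ∀ i j, i ≤ j → b i ≤ b j := by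
    intro i j hij
    simp only [hb]
    exact mul_le_mul_of_nonneg_right (pow_le_pow_right₀ (by norm_num) hij) hl.le
  -- some scale is not proper
  have hex : ∃ j, ¬ (∀ x : E, (x, (0 : ZMod p)) ∈ G → ‖x‖ ≤ 2 * b j → x = 0) := by
    have h1 : ∃ z ∈ ball G l, z.1 ≠ 0 := by
      by_contra hcon
      push Not at hcon
      have h2 : Submodule.span ℝ (Prod.fst '' ball G l) = ⊥ := by
        rw [Submodule.span_eq_bot]
        rintro _ ⟨z, hz, rfl⟩
        exact hcon z hz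
      rw [h2] at hspan
      have h3 : finrank ℝ (⊥ : Submodule ℝ E) = finrank ℝ (⊤ : Submodule ℝ E) := by rw [hspan]
      rw [finrank_bot, finrank_top] at h3
      omega
    obtain ⟨z, hz, hz0⟩ := h1
    have h4 : (p • z.1, (0 : ZMod p)) ∈ G := by
      have h5 := G.nsmul_mem hz.1 p
      have h6 : p • z = (p • z.1, (0 : ZMod p)) := by
        refine Prod.ext rfl ?_
        rw [Prod.smul_snd, nsmul_eq_mul, ZMod.natCast_self, zero_mul]
      rwa [h6] at h5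
    obtain ⟨j, hj⟩ : ∃ j : ℕ, ‖p • z.1‖ ≤ 2 * b j := by
      obtain ⟨j, hj⟩ := pow_unbounded_of_one_lt (‖p • z.1‖ / l) (by norm_num : (1 : ℝ) < 2)
      refine ⟨j, ?_⟩
      have h7 : ‖p • z.1‖ < 2 ^ j * l := (div_lt_iff₀ hl).1 hj
      have h8 : 0 < b j := hbpos j
      have h9 : b j = 2 ^ j * l := rfl
      linarith
    refine ⟨j, fun hcon => ?_⟩
    have h10 := hcon _ h4 hj
    rw [← Nat.cast_smul_eq_nsmul ℝ] at h10
    rcases smul_eq_zero.1 h10 with h11 | h11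
    · exact hp.ne' h11
    · exact hz0 h11
  obtain ⟨J, hJ1, hJ2⟩ : ∃ J, (∀ j ≤ J, ∀ x : E, (x, (0 : ZMod p)) ∈ G → ‖x‖ ≤ 2 * b j → x = 0) ∧
      ¬ (∀ x : E, (x, (0 : ZMod p)) ∈ G → ‖x‖ ≤ 2 * b (J + 1) → x = 0) := by
    have h1 := Nat.find_spec hex
    have h2 : Nat.find hex ≠ 0 := by
      intro h3
      rw [h3, hb0] at h1
      exact h1 hprop
    refine ⟨Nat.find hex - 1, ?_, ?_⟩
    · intro j hj
      have h4 : j < Nat.find hex := by omega
      exact not_not.1 (Nat.find_min hex h4)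
    · have h5 : Nat.find hex - 1 + 1 = Nat.find hex := by omega
      rw [h5]
      exact h1
  -- cardinalities
  have hfpos : ∀ i, (0 : ℝ) < ((PP G (b i)).card : ℝ) := fun i => by
    exact_mod_cast hsys.card_pos (hbpos i).le
  have hf0 : (0 : ℝ) < ((PP G l).card : ℝ) := by
    have := hfpos 0
    rwa [hb0] at this
  have hAlt : ∀ ρ ∈ S, ∀ j ≤ J, ((PP G (b j)).card : ℝ) * (rr (PP G l) ρ : ℝ) ≤
      c4 * ((rr (PP G (b j)) ρ : ℝ) * ((PP G l).card : ℝ)) := by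
    intro ρ hρ j hj
    have h1 := (hS ρ hρ).2.2 (b j) (by have := hbmono 0 j (Nat.zero_le _); rwa [hb0] at this) (hJ1 j hj)
    exact h1
  set S1 : Finset (ZMod p) := S.filter (fun ρ => ∀ j ≤ J, C2 * ((PP G (b j)).card : ℝ) ^ 2 ≤ p * (rr (PP G (b j)) ρ : ℝ)) with hS1
  set S2 : Finset (ZMod p) := S.filter (fun ρ => ¬ ∀ j ≤ J, C2 * ((PP G (b j)).card : ℝ) ^ 2 ≤ p * (rr (PP G (b j)) ρ : ℝ)) with hS2
  have hcard : S.card = S1.card + S2.card := (Finset.card_filter_add_card_filter_not _).symm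
  -- case 1
  have hcase1 : (S1.card : ℝ) ≤ C' * (p : ℝ) ^ (4 / (K : ℝ)) * (c4 * c5 * ((PP G l).card : ℝ) / M) ^ 2 := by
    push Not at hJ2
    obtain ⟨x, hx1, hx2, hx3⟩ := hJ2
    obtain ⟨P', hP'1, hP'2, hP'3⟩ := hQUO p E G d (b (J + 1)) x hFB hfin.le (hbpos _) hx3 hx1 hx2
    have hf'pos : (0 : ℝ) < ((P' (b (J + 1))).card : ℝ) := by exact_mod_cast hP'1.card_pos (hbpos _).le
    have hf' : ((P' (b (J + 1))).card : ℝ) ≤ c5 * ((PP G (b J)).card : ℝ) := by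
      have h1 : ((P' (b (J + 1))).card : ℝ) ≤ ((PP G (((d : ℝ) + 3) * b (J + 1))).card : ℝ) := by
        exact_mod_cast Finset.card_le_card hP'3
      have h2 := (hPKC.2.2 p (d + 1) (fun R => PP G R) hsys (((d : ℝ) + 3) * b (J + 1)) (b J)
        (by have := hbpos (J + 1); positivity) (hbpos J)).1
      have h3 : 1 + 2 * (((d : ℝ) + 3) * b (J + 1)) / b J = 1 + 4 * ((d : ℝ) + 3) := by
        rw [hbs]
        have := (hbpos J).ne'
        field_simp
        ring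
      rw [h3] at h2
      exact h1.trans h2
    set M' : ℝ := ((P' (b (J + 1))).card : ℝ) * M / (c4 * c5 * ((PP G l).card : ℝ)) with hM'
    have hM'p : 0 < M' := by rw [hM']; positivity
    have h1 := hLV p P' hP'1 (b (J + 1)) (hbpos _) M' hM'p
    have h2 : S1 ⊆ (Lam C' (P' (b (J + 1)))).filter fun ρ => M' ≤ (rr (P' (b (J + 1))) ρ : ℝ) := by
      intro ρ hρ
      obtain ⟨hρ1, hρ2⟩ := Finset.mem_filter.1 hρ
      obtain ⟨hρ3, hρ4, hρ5⟩ := hS ρ hρ1
      obtain ⟨hρ6, hρ7, hρ8⟩ := (mem_Lam _ _ _).1 hρ3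
      have hsub : PP G (b J) ⊆ P' (b (J + 1)) := (PP_mono G (hbmono J (J + 1) (Nat.le_succ J))).trans hP'2
      have hsub0 : PP G l ⊆ PP G (b J) := by
        have := hbmono 0 J (Nat.zero_le _)
        rw [hb0] at this
        exact PP_mono G this
      have hr1 : rr (PP G (b J)) ρ ≤ rr (P' (b (J + 1))) ρ := LV2_rr_mono hsub ρ
      have hr0 : rr (PP G l) ρ ≤ rr (PP G (b J)) ρ := LV2_rr_mono hsub0 ρ
      have hr1' : (rr (PP G (b J)) ρ : ℝ) ≤ (rr (P' (b (J + 1))) ρ : ℝ) := by exact_mod_cast hr1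
      refine Finset.mem_filter.2 ⟨(mem_Lam _ _ _).2 ⟨hρ6, ?_, ?_⟩, ?_⟩
      · omega
      · have h3 : ((P' (b (J + 1))).card : ℝ) ^ 2 ≤ (c5 * ((PP G (b J)).card : ℝ)) ^ 2 :=
          pow_le_pow_left₀ hf'pos.le hf' 2
        calc C' * ((P' (b (J + 1))).card : ℝ) ^ 2 ≤ C' * (c5 * ((PP G (b J)).card : ℝ)) ^ 2 :=
              mul_le_mul_of_nonneg_left h3 (by linarith)
          _ = (C' * c5 ^ 2) * ((PP G (b J)).card : ℝ) ^ 2 := by ring
          _ ≤ C2 * ((PP G (b J)).card : ℝ) ^ 2 := mul_le_mul_of_nonneg_right hC2b (by positivity)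
          _ ≤ p * (rr (PP G (b J)) ρ : ℝ) := hρ2 J le_rfl
          _ ≤ p * (rr (P' (b (J + 1))) ρ : ℝ) := mul_le_mul_of_nonneg_left hr1' hp.le
      · have h4 := hAlt ρ hρ1 J le_rfl
        rw [hM', div_le_iff₀ (by positivity)]
        calc ((P' (b (J + 1))).card : ℝ) * M ≤ (c5 * ((PP G (b J)).card : ℝ)) * (rr (PP G l) ρ : ℝ) :=
              mul_le_mul hf' hρ4 hM.le (by positivity)
          _ = c5 * (((PP G (b J)).card : ℝ) * (rr (PP G l) ρ : ℝ)) := by ring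
          _ ≤ c5 * (c4 * ((rr (PP G (b J)) ρ : ℝ) * ((PP G l).card : ℝ))) :=
              mul_le_mul_of_nonneg_left h4 hc5p.le
          _ = (rr (PP G (b J)) ρ : ℝ) * (c4 * c5 * ((PP G l).card : ℝ)) := by ring
          _ ≤ (rr (P' (b (J + 1))) ρ : ℝ) * (c4 * c5 * ((PP G l).card : ℝ)) :=
              mul_le_mul_of_nonneg_right hr1' (by positivity)
    have h5 : (S1.card : ℝ) ≤ C' * (p : ℝ) ^ (4 / (K : ℝ)) * (((P' (b (J + 1))).card : ℝ) / M') ^ 2 :=
      le_trans (by exact_mod_cast Finset.card_le_card h2) h1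
    have h6 : ((P' (b (J + 1))).card : ℝ) / M' = c4 * c5 * ((PP G l).card : ℝ) / M := by
      rw [hM']
      field_simp
    rwa [h6] at h5
  -- case 2
  have hcase2 : (S2.card : ℝ) ≤ (p : ℝ) ^ (4 / (K : ℝ)) * (c6 * ((PP G l).card : ℝ) / M) ^ 2 := by
    have hkey : ∀ ρ ∈ S2, ∃ i, (p : ℝ) * M ≤ c6 * ((PP G l).card : ℝ) * ((PP G (b i)).card : ℝ) ∧
        ∀ k ≤ i, C2 * ((PP G (b k)).card : ℝ) ^ 2 ≤ p * (rr (PP G (b k)) ρ : ℝ) := by
      intro ρ hρ
      obtain ⟨hρ1, hρ2⟩ := Finset.mem_filter.1 hρ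
      obtain ⟨hρ3, hρ4, hρ5⟩ := hS ρ hρ1
      obtain ⟨hρ6, hρ7, hρ8⟩ := (mem_Lam _ _ _).1 hρ3
      have hex2 : ∃ j, j ≤ J ∧ ¬ (C2 * ((PP G (b j)).card : ℝ) ^ 2 ≤ p * (rr (PP G (b j)) ρ : ℝ)) := by
        by_contra hcon
        push Not at hcon
        exact hρ2 hcon
      obtain ⟨hj1, hj2⟩ := Nat.find_spec hex2
      set j := Nat.find hex2 with hj
      have hj0 : j ≠ 0 := by
        intro h0
        rw [h0, hb0] at hj2
        apply hj2
        exact (mul_le_mul_of_nonneg_right hCC2 (by positivity)).trans hρ8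
      have hmin : ∀ k < j, C2 * ((PP G (b k)).card : ℝ) ^ 2 ≤ p * (rr (PP G (b k)) ρ : ℝ) := by
        intro k hk
        by_contra hcon
        exact Nat.find_min hex2 hk ⟨by omega, hcon⟩
      refine ⟨j - 1, ?_, fun k hk => hmin k (by omega)⟩
      have h1 := hAlt ρ hρ1 j hj1
      have hfj := hfpos j
      have h2 : ((PP G (b j)).card : ℝ) ≤ 5 ^ (d + 1) * ((PP G (b (j - 1))).card : ℝ) := by
        have h3 := (hPKC.2.2 p (d + 1) (fun R => PP G R) hsys (b j) (b (j - 1)) (hbpos _).le (hbpos _)).1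
        have h4 : 1 + 2 * b j / b (j - 1) = 5 := by
          have h5 : b j = 2 * b (j - 1) := by
            have := hbs (j - 1)
            rwa [Nat.sub_add_cancel (Nat.one_le_iff_ne_zero.2 hj0)] at this
          rw [h5]
          have := (hbpos (j - 1)).ne'
          field_simp
          norm_num
        rw [h4] at h3
        exact h3
      push Not at hj2
      -- p * f_j * rr(l) < c4 * C2 * f * f_j ^ 2
      have h6 : ((PP G (b j)).card : ℝ) * ((p : ℝ) * (rr (PP G l) ρ : ℝ)) ≤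
          ((PP G (b j)).card : ℝ) * (C2 * c4 * ((PP G l).card : ℝ) * ((PP G (b j)).card : ℝ)) := by
        calc ((PP G (b j)).card : ℝ) * ((p : ℝ) * (rr (PP G l) ρ : ℝ))
            = p * (((PP G (b j)).card : ℝ) * (rr (PP G l) ρ : ℝ)) := by ring
          _ ≤ p * (c4 * ((rr (PP G (b j)) ρ : ℝ) * ((PP G l).card : ℝ))) :=
              mul_le_mul_of_nonneg_left h1 hp.le
          _ = (c4 * ((PP G l).card : ℝ)) * (p * (rr (PP G (b j)) ρ : ℝ)) := by ring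
          _ ≤ (c4 * ((PP G l).card : ℝ)) * (C2 * ((PP G (b j)).card : ℝ) ^ 2) :=
              mul_le_mul_of_nonneg_left hj2.le (by positivity)
          _ = ((PP G (b j)).card : ℝ) * (C2 * c4 * ((PP G l).card : ℝ) * ((PP G (b j)).card : ℝ)) := by ring
      have h7 := le_of_mul_le_mul_left h6 hfj
      calc (p : ℝ) * M ≤ p * (rr (PP G l) ρ : ℝ) := mul_le_mul_of_nonneg_left hρ4 hp.le
        _ ≤ C2 * c4 * ((PP G l).card : ℝ) * ((PP G (b j)).card : ℝ) := h7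
        _ ≤ C2 * c4 * ((PP G l).card : ℝ) * (5 ^ (d + 1) * ((PP G (b (j - 1))).card : ℝ)) :=
            mul_le_mul_of_nonneg_left h2 (by positivity)
        _ = c6 * ((PP G l).card : ℝ) * ((PP G (b (j - 1))).card : ℝ) := by rw [hc6]; ring
    rcases S2.eq_empty_or_nonempty with hemp | ⟨ρ0, hρ0⟩
    · rw [hemp, Finset.card_empty, Nat.cast_zero]
      positivity
    · have hex3 : ∃ i, (p : ℝ) * M ≤ c6 * ((PP G l).card : ℝ) * ((PP G (b i)).card : ℝ) := by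
        obtain ⟨i, hi, _⟩ := hkey ρ0 hρ0
        exact ⟨i, hi⟩
      set i0 := Nat.find hex3 with hi0
      have hi0s : (p : ℝ) * M ≤ c6 * ((PP G l).card : ℝ) * ((PP G (b i0)).card : ℝ) := Nat.find_spec hex3
      have h1 := LV2_T2 hPKC hT2 K hK p (d + 1) (fun R => PP G R) hsys (b i0) (hbpos i0) C2 hC2a S2 (by
        intro ρ hρ
        obtain ⟨i, hi1, hi2⟩ := hkey ρ hρ
        have h2 : i0 ≤ i := Nat.find_min' hex3 hi1
        have hρ1 := (Finset.mem_filter.1 hρ).1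
        exact ⟨((mem_Lam _ _ _).1 (hS ρ hρ1).1).1, hi2 i0 h2⟩)
      refine h1.trans ?_
      refine mul_le_mul_of_nonneg_left ?_ (by positivity)
      refine pow_le_pow_left₀ (by positivity) ?_ 2
      rw [div_le_div_iff₀ (hfpos i0) hM]
      exact hi0s
  have hC0 : C' * (c4 * c5) ^ 2 + c6 ^ 2 ≤ max 1 (max C2 (C' * (c4 * c5) ^ 2 + c6 ^ 2)) :=
    (le_max_right _ _).trans (le_max_right _ _)
  calc (S.card : ℝ) = (S1.card : ℝ) + (S2.card : ℝ) := by rw [hcard]; push_cast; ring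
    _ ≤ C' * (p : ℝ) ^ (4 / (K : ℝ)) * (c4 * c5 * ((PP G l).card : ℝ) / M) ^ 2 +
        (p : ℝ) ^ (4 / (K : ℝ)) * (c6 * ((PP G l).card : ℝ) / M) ^ 2 := add_le_add hcase1 hcase2
    _ = (C' * (c4 * c5) ^ 2 + c6 ^ 2) * ((p : ℝ) ^ (4 / (K : ℝ)) * (((PP G l).card : ℝ) / M) ^ 2) := by ring
    _ ≤ max 1 (max C2 (C' * (c4 * c5) ^ 2 + c6 ^ 2)) * ((p : ℝ) ^ (4 / (K : ℝ)) * (((PP G l).card : ℝ) / M) ^ 2) :=
        mul_le_mul_of_nonneg_right hC0 (by positivity)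
    _ = _ := by ring

end Pool.Agent.helper85.PG
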